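import Pool.Agent.Run7.h951.T.F1
import Pool.Agent.Run7.h951.T.F1f
import Pool.Agent.H574R2.D3.F2pre

/-!
# Piece T-F2: linear combinations of the prime sums

The statements `St_F2_A`, `St_F2_B`, `St_F2_U`, ported from `Pool.Agent.Dim7.F2pre`.
-/

open Filter Topology

namespace Pool.Agent.Run7.h951.T

open Pool.Agent.Run7.h851.T
open Pool.Agent.H574R2.D3 (Lm Lm.add Lm.sub Lm.mul Lm.div Lm.sum Lm.of_eq)

noncomputable section

theorem t_F2_A : St_F2_A := by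
  unfold St_F2_A
  have T : ∀ j : ℕ, j ∈ Finset.Icc 1 200 →
      Lm (PS ((1 / 50 : ℚ) : ℝ) ((4 / 3 : ℚ) : ℝ)) (fun n p => tn (4 * n) j p)
      ((It 4 j (1 / 50) (4 / 3) : ℚ) : ℝ) := fun j hj =>
    F1_tent 4 j (Finset.mem_Icc.mp hj).1 (1 / 50) (4 / 3) (by norm_num) (by norm_num) (by norm_num)
  have F4 : Lm (PS ((1 / 50 : ℚ) : ℝ) ((4 / 3 : ℚ) : ℝ)) (fun n p => (n : ℝ) * ((4 * n / p : ℕ) : ℝ))
      ((Ifl 4 200 (1 / 50) (4 / 3) : ℚ) : ℝ) :=
    F1_floor 4 200 (1 / 50) (4 / 3) (by norm_num) (by norm_num) (by norm_num) (by norm_num) (by norm_num)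
  have K : Lm (PS ((1 / 50 : ℚ) : ℝ) ((4 / 3 : ℚ) : ℝ)) (fun n _ => (n : ℝ)) (((4 / 3 - 1 / 50 : ℚ)) : ℝ) :=
    F1_const (1 / 50) (4 / 3) (by norm_num) (by norm_num) (by norm_num)
  have I : Lm (PS ((1 / 50 : ℚ) : ℝ) ((4 / 3 : ℚ) : ℝ)) (fun _ p => (p : ℝ))
      (((((4 / 3) ^ 2 - (1 / 50) ^ 2) / 2 : ℚ)) : ℝ) :=
    F1_id (1 / 50) (4 / 3) (by norm_num) (by norm_num) (by norm_num)
  have V : Lm (PS ((1 / 50 : ℚ) : ℝ) ((4 / 3 : ℚ) : ℝ)) (fun n p => (n : ℝ) ^ 2 / p)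
      (Real.log ((4 / 3 : ℚ) : ℝ) - Real.log ((1 / 50 : ℚ) : ℝ)) :=
    F1_inv (1 / 50) (4 / 3) (by norm_num) (by norm_num) (by norm_num)
  have SX := Lm.sum (Finset.Icc 1 200) (fun j hj => T j hj)
  have H := ((((K.mul 2952).sub (F4.mul 4608)).sub (V.mul 768)).add (I.mul (3 / 64))).add (SX.mul 1536)
  refine Lm.of_eq H ?_ ?_ ?_
  · push_cast; rfl
  · intro n p
    unfold EA
    rfl
  · have h200 : Real.log ((4 / 3 : ℚ) : ℝ) - Real.log ((1 / 50 : ℚ) : ℝ) = Real.log (200 / 3) := by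
      push_cast
      rw [← Real.log_div (by norm_num) (by norm_num)]
      norm_num
    rw [h200]
    unfold LA
    push_cast
    ring

/-- no prime at the boundary -/
lemma F2_no_prime {n p u v : ℕ} (hp : p.Prime) (hv : v < u) (hn : u < n) (h : v * p = u * n) : False := by
  have h1 : p ∣ u * n := ⟨v, by rw [← h]; ring⟩
  rcases (Nat.Prime.dvd_mul hp).mp h1 with h2 | h2
  · have h3 : p ≤ u := Nat.le_of_dvd (by omega) h2
    have h4 : v * p ≤ v * u := Nat.mul_le_mul_left _ h3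
    have h5 : u * u < u * n := Nat.mul_lt_mul_of_pos_left hn (by omega)
    have h6 : v * u ≤ u * u := Nat.mul_le_mul_right _ hv.le
    omega
  · have h3 : p ≤ n := Nat.le_of_dvd (by omega) h2
    have h4 : v * p ≤ v * n := Nat.mul_le_mul_left _ h3
    have h5 : v * n < u * n := Nat.mul_lt_mul_of_pos_right hv (by omega)
    omega

/-- joining two intervals -/
lemma F2_join {lo hi : ℝ} (u v : ℕ) (hv : 0 < v) (huv : v < u) {f : ℕ → ℕ → ℝ} {L M : ℝ}
    (h1 : lo ≤ (u : ℝ) / v) (h2 : (u : ℝ) / v ≤ hi)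
    (hf : Lm (PS lo ((u : ℝ) / v)) f L) (hg : Lm (PS ((u : ℝ) / v) hi) f M) : Lm (PS lo hi) f (L + M) := by
  have h := Tendsto.add hf hg
  refine h.congr' ?_
  filter_upwards [eventually_gt_atTop u] with n hn
  rw [← add_div]
  congr 1
  have hn0 : (0 : ℝ) ≤ n := by positivity
  have hv0 : (0 : ℝ) < v := by exact_mod_cast hv
  have hd : Disjoint (PS lo ((u : ℝ) / v) n) (PS ((u : ℝ) / v) hi n) := by
    rw [Finset.disjoint_left]
    intro p hp hq
    unfold PS at hp hq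
    simp only [Finset.mem_filter] at hp hq
    linarith [hp.2.2.2, hq.2.2.1]
  rw [← Finset.sum_union hd]
  refine Finset.sum_congr ?_ fun _ _ => rfl
  ext p
  unfold PS
  simp only [Finset.mem_union, Finset.mem_filter]
  constructor
  · rintro (⟨a, b, c, d⟩ | ⟨a, b, c, d⟩)
    · exact ⟨a, b, c, d.trans_le (mul_le_mul_of_nonneg_right h2 hn0)⟩
    · exact ⟨a, b, (mul_le_mul_of_nonneg_right h1 hn0).trans_lt c, d⟩
  · rintro ⟨a, b, c, d⟩
    rcases lt_trichotomy (p : ℝ) ((u : ℝ) / v * n) with h3 | h3 | h3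
    · exact Or.inl ⟨a, b, c, h3⟩
    · exfalso
      refine F2_no_prime b huv hn ?_
      have h4 : (v : ℝ) * p = u * n := by
        rw [h3]
        field_simp
      exact_mod_cast h4
    · exact Or.inr ⟨a, b, h3, d⟩

/-- one piece of `EB` -/
lemma F2_piece (lo hi a b : ℚ) (h0 : 0 < lo) (h1 : lo ≤ hi) (h2 : hi ≤ 144)
    (h : ∀ n p : ℕ, (lo : ℝ) * n < p → (p : ℝ) < (hi : ℝ) * n → EB n p = (a : ℝ) * n - (b : ℝ) * p) :
    Lm (PS (lo : ℝ) (hi : ℝ)) EB ((a * (hi - lo) - b * ((hi ^ 2 - lo ^ 2) / 2) : ℚ) : ℝ) := by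
  have K : Lm (PS (lo : ℝ) (hi : ℝ)) (fun n _ => (n : ℝ)) (((hi - lo : ℚ)) : ℝ) := F1_const lo hi h0 h1 h2
  have I : Lm (PS (lo : ℝ) (hi : ℝ)) (fun _ p => (p : ℝ)) ((((hi ^ 2 - lo ^ 2) / 2 : ℚ)) : ℝ) :=
    F1_id lo hi h0 h1 h2
  have H := (K.mul (a : ℝ)).sub (I.mul (b : ℝ))
  have e : (a : ℝ) * (((hi - lo : ℚ)) : ℝ) - (b : ℝ) * ((((hi ^ 2 - lo ^ 2) / 2 : ℚ)) : ℝ) =
      ((a * (hi - lo) - b * ((hi ^ 2 - lo ^ 2) / 2) : ℚ) : ℝ) := by push_cast; ring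
  rw [e] at H
  refine H.congr fun n => ?_
  congr 1
  refine Finset.sum_congr rfl fun p hp => ?_
  unfold PS at hp
  simp only [Finset.mem_filter] at hp
  rw [h n p hp.2.2.1 hp.2.2.2]

theorem t_F2_B : St_F2_B := by
  unfold St_F2_B
  have P0 := F2_piece (4 / 3) 2 9698 7397 (by norm_num) (by norm_num) (by norm_num) (by
    intro n p h1 h2
    push_cast at h1 h2
    have g1 : p ≤ 2 * n := by
      have : (p : ℝ) ≤ 2 * n := by linarith
      exact_mod_cast this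
    unfold EB
    rw [if_pos g1]
    push_cast
    ring)
  have P1 := F2_piece 2 4 3608 2048 (by norm_num) (by norm_num) (by norm_num) (by
    intro n p h1 h2
    push_cast at h1 h2
    have g0 : 2 * n < p := by
      have : (2 : ℝ) * n < p := by linarith
      exact_mod_cast this
    unfold EB
    rw [if_neg (by omega)]
    push_cast
    ring)
  have c : ∀ (u v : ℕ) (q : ℚ), (q : ℚ) = (u : ℚ) / v → ((q : ℚ) : ℝ) = (u : ℝ) / v := by
    intro u v q h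
    rw [h]
    push_cast
    rfl
  rw [c 2 1 2 (by norm_num)] at P0
  rw [c 2 1 2 (by norm_num)] at P1
  have Q1 := F2_join 2 1 (by norm_num) (by norm_num) (by norm_num) (by norm_num) P0 P1
  refine Lm.of_eq Q1 ?_ (fun n p => rfl) ?_
  · push_cast; rfl
  · unfold LB
    push_cast
    norm_num

theorem t_F2_U : St_F2_U := by
  unfold St_F2_U
  have T : ∀ α j : ℕ, j ∈ Finset.Icc 1 7200 →
      Lm (PS ((1 / 50 : ℚ) : ℝ) ((144 : ℚ) : ℝ)) (fun n p => tn (α * n) j p)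
      ((It α j (1 / 50) 144 : ℚ) : ℝ) := fun α j hj =>
    F1_tent α j (Finset.mem_Icc.mp hj).1 (1 / 50) 144 (by norm_num) (by norm_num) (by norm_num)
  have H := Lm.sum (Finset.Icc 1 7200) (fun j hj => ((T 144 j hj).mul (1 / 2)).add ((T 48 j hj).mul (3 / 2)))
  refine Lm.of_eq H ?_ ?_ ?_
  · push_cast; rfl
  · intro n p
    rfl
  · unfold LU
    push_cast
    rfl

end

end Pool.Agent.Run7.h951.T
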